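import Pool.Agent.Lib.MP_71c7f5_ag.CM
import Pool.Agent.Lib.MP_71c7f5_ag.NoLefschetz

/-!
An integral arithmetically Cohen-Macaulay curve in projective 4-space none of whose Artinian
reductions has the weak or the strong Lefschetz property.

The curve is the rational monomial curve with exponents `0, 1, 5, 21, 85`. Its ideal is generated by
the 2 by 2 minors of the matrix with rows `x_1, x_2, x_3, x_4` and `x_0^4, x_1^4, x_2^4, x_3^4`.
Every Artinian reduction has a nonzero socle element in degree 4, although its pieces of degree 4
and 5 both have dimension 15.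
-/

namespace Pool.Agent.Results.MP_71c7f5_ag.MonomialCurve

open MvPolynomial Pool.Agent.MP_71c7f5_ag

/-- The rational monomial curve with exponents `0, 1, 5, 21, 85` is an integral arithmetically
Cohen-Macaulay curve in projective 4-space over the algebraically closed field `K` (in particular
`x_0, x_4` is a regular sequence on its coordinate ring), and for every regular sequence `l₁, l₂` of
linear forms on its coordinate ring the Artinian reduction by `l₁, l₂` has neither the weak nor the
strong Lefschetz property. -/
theorem result (K : Type*) [Field K] [IsAlgClosed K] :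
    IsIntegralACMCurve (curveIdeal K) ∧
      RingTheory.Sequence.IsRegular (P4 K ⧸ curveIdeal K) [(X 0 : P4 K), X 4] ∧
      ∀ l₁ ∈ homogeneousSubmodule (Fin 5) K 1, ∀ l₂ ∈ homogeneousSubmodule (Fin 5) K 1,
        RingTheory.Sequence.IsRegular (P4 K ⧸ curveIdeal K) [l₁, l₂] →
          ¬ HasWLP (curveIdeal K ⊔ Ideal.span {l₁, l₂}) ∧
            ¬ HasSLP (curveIdeal K ⊔ Ideal.span {l₁, l₂}) :=
  ⟨isIntegralACMCurve, isRegular_X0_X4, fun _ h₁ _ h₂ h =>
    ⟨not_hasWLP h₁ h₂ h, not_hasSLP h₁ h₂ h⟩⟩

end Pool.Agent.Results.MP_71c7f5_ag.MonomialCurve
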